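import Pool.Agent.R914.K3P.Single

/-!
# Several blocks
-/

set_option linter.unusedSectionVars false

open Finset Function

universe u

namespace Pool.Agent.R914.K3P

variable {K : Type u} [Field K] {B ι : Type} [Fintype B] [DecidableEq B] [DecidableEq ι]
  {κ : B → ι} {i : ι} (𝒜 : System K B)

/-- Functions of two variables whose partial functions are in given spaces. -/
theorem tensor_dec {X Y : Type} [Fintype X] [Fintype Y] (F₁ : Submodule K (X → K))
    (F₂ : Submodule K (Y → K)) (f : X → Y → K) (h₁ : ∀ y, (fun x => f x y) ∈ F₁)
    (h₂ : ∀ x, f x ∈ F₂) :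
    ∃ (n : ℕ) (g : Fin n → X → K) (h : Fin n → Y → K), (∀ k, g k ∈ F₁) ∧ (∀ k, h k ∈ F₂) ∧
      ∀ x y, f x y = ∑ k, g k x * h k y := by
  classical
  set b := Module.finBasis K F₁ with hb
  have hex : ∀ k, ∃ φ : (X → K) →ₗ[K] K, φ ∘ₗ F₁.subtype = b.coord k := fun k =>
    LinearMap.exists_extend (b.coord k)
  choose φ hφ using hex
  refine ⟨_, fun k => (b k : X → K), fun k y => φ k (fun x => f x y), fun k => (b k).2,
    fun k => ?_, fun x y => ?_⟩
  · have h3 : (fun y => φ k (fun x => f x y)) = ∑ x, φ k (Pi.single x 1) • f x := by
      funext y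
      rw [Finset.sum_apply]
      have h4 : (fun x => f x y) = ∑ x, f x y • (Pi.single x 1 : X → K) := by
        funext z
        rw [Finset.sum_apply, Finset.sum_eq_single z]
        · simp
        · intro w _ hw
          simp [Ne.symm hw]
        · intro h; exact absurd (Finset.mem_univ _) h
      rw [h4, map_sum]
      refine Finset.sum_congr rfl fun x _ => ?_
      rw [map_smul, Pi.smul_apply, smul_eq_mul, smul_eq_mul, mul_comm]
    show (fun y => φ k (fun x => f x y)) ∈ F₂
    rw [h3]
    exact Submodule.sum_mem _ fun x _ => Submodule.smul_mem _ _ (h₂ x)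
  · have h3 := b.sum_repr ⟨fun x => f x y, h₁ y⟩
    have h4 := congrFun (congrArg Subtype.val h3) x
    refine Eq.trans h4.symm ?_
    have h5 : ((∑ k, (b.repr ⟨fun x => f x y, h₁ y⟩) k • b k : F₁) : X → K) x =
        ∑ k, (b.repr ⟨fun x => f x y, h₁ y⟩) k * (b k : X → K) x := by
      rw [AddSubmonoidClass.coe_finset_sum, Finset.sum_apply]
      rfl
    rw [h5]
    refine Finset.sum_congr rfl fun k _ => ?_
    have h6 : φ k (fun x => f x y) = (b.repr ⟨fun x => f x y, h₁ y⟩) k := by
      have h7 := LinearMap.congr_fun (hφ k) ⟨fun x => f x y, h₁ y⟩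
      exact h7
    show _ = (b k : X → K) x * φ k (fun x => f x y)
    rw [h6, mul_comm]

/-- The killed forms in the variables of a block. -/
def kilSupp (κ : B → ι) (i : ι) (S : Type) [Fintype S] [DecidableEq S] :
    Submodule K (Form K B S) where
  carrier := {t | Killed κ t ∧ Supp κ i t}
  zero_mem' := ⟨(kil (K := K) κ S).zero_mem, fun _ _ => rfl⟩
  add_mem' := by
    rintro a b ⟨ha, ha'⟩ ⟨hb, hb'⟩
    refine ⟨mem_kil.1 ((kil (K := K) κ S).add_mem (mem_kil.2 ha) (mem_kil.2 hb)), fun J hJ => ?_⟩
    rw [Pi.add_apply, ha' J hJ, hb' J hJ, add_zero]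
  smul_mem' := by
    rintro c a ⟨ha, ha'⟩
    refine ⟨mem_kil.1 ((kil (K := K) κ S).smul_mem c (mem_kil.2 ha)), fun J hJ => ?_⟩
    rw [Pi.smul_apply, ha' J hJ, smul_zero]

theorem main_aux [CharZero K] [Fintype ι]
    (hD : ∀ i, detForm K κ i ∈ 𝒜.A {b // κ b = i}) (N : ℕ) :
    ∀ (S : Type) [Fintype S] [DecidableEq S] (t : Form K B S), Fintype.card S = N →
      Killed κ t → t ∈ 𝒜.A S := by
  classical
  induction N using Nat.strong_induction_on with
  | _ N ih =>
    intro S _ _ t hN ht
    -- decomposition into patterns
    have hdec : t = ∑ c : S → ι, (fun J => if (∀ j, κ (J j) = c j) then t J else 0) := by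
      funext J
      rw [Finset.sum_apply, Finset.sum_eq_single (fun j => κ (J j))]
      · simp
      · intro c _ hc
        rw [if_neg]
        intro h
        exact hc (funext fun j => (h j).symm)
      · intro h; exact absurd (Finset.mem_univ _) h
    rw [hdec]
    refine Submodule.sum_mem _ fun c _ => ?_
    have hk := killed_pattern ht c
    set f : Form K B S := fun J => if (∀ j, κ (J j) = c j) then t J else 0 with hf
    have hpat : ∀ J, (∃ j, κ (J j) ≠ c j) → f J = 0 := by
      rintro J ⟨j, hj⟩
      simp only [hf]
      rw [if_neg (fun h => hj (h j))]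
    clear_value f
    rcases isEmpty_or_nonempty S with hS | ⟨⟨x0⟩⟩
    · have h1 := 𝒜.rename (Equiv.equivOfIsEmpty Empty S) _ 𝒜.const
      have h2 := Submodule.smul_mem _ (f (fun x => (hS.false x).elim)) h1
      convert h2 using 1
      funext J
      rw [Pi.smul_apply, smul_eq_mul, mul_one]
      congr 1
      funext x
      exact (hS.false x).elim
    · set i := c x0 with hi
      set e := Equiv.sumCompl (fun x => c x = i) with he
      set f' : Form K B ({x // c x = i} ⊕ {x // ¬ c x = i}) := fun J => f (J ∘ e.symm) with hf'
      have hk' : Killed κ f' := killed_rename e.symm hk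
      have hp1 : ∀ J x, κ (J (Sum.inl x)) ≠ i → f' J = 0 := by
        intro J x hx
        apply hpat
        refine ⟨x.1, ?_⟩
        have h1 : e.symm x.1 = Sum.inl x := by
          rw [Equiv.symm_apply_eq]; rfl
        rw [comp_apply, h1, x.2]
        exact hx
      have hp2 : ∀ J x, κ (J (Sum.inr x)) = i → f' J = 0 := by
        intro J x hx
        apply hpat
        refine ⟨x.1, ?_⟩
        have h1 : e.symm x.1 = Sum.inr x := by
          rw [Equiv.symm_apply_eq]; rfl
        rw [comp_apply, h1, hx]
        exact fun h => x.2 h.symm
      obtain ⟨n, g, h, hg, hh, hgh⟩ := tensor_dec (kilSupp (K := K) κ i {x // c x = i})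
        (kil (K := K) κ {x // ¬ c x = i}) (fun J₁ J₂ => f' (Sum.elim J₁ J₂))
        (by
          intro J₂
          refine ⟨?_, ?_⟩
          · refine killed_iff.2 fun u v huv => ?_
            funext J₁
            by_cases hu : κ u = i
            · by_cases hJ : ∃ x, κ (J₂ x) = i
              · obtain ⟨x, hx⟩ := hJ
                refine Finset.sum_eq_zero fun j _ => ?_
                simp only
                rw [hp2 (Sum.elim (update J₁ j u) J₂) x hx,
                  hp2 (Sum.elim (update J₁ j v) J₂) x hx, ite_self, ite_self, sub_zero]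
              · push Not at hJ
                have h1 := op_left (u := u) (v := v) (f := f') (Sum.elim J₁ J₂)
                  (fun x => ⟨fun h => hJ x (by
                      have : J₂ x = u := h
                      rw [this, hu]), fun h => hJ x (by
                      have : J₂ x = v := h
                      rw [this, ← huv, hu])⟩)
                  (congrFun (killed_iff.1 hk' u v huv) _)
                exact h1
            · refine Finset.sum_eq_zero fun j _ => ?_
              simp only
              rw [hp1 (Sum.elim (update J₁ j u) J₂) j (by simpa using hu),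
                hp1 (Sum.elim (update J₁ j v) J₂) j (by simpa using (by rw [← huv]; exact hu)),
                ite_self, ite_self, sub_zero]
          · rintro J₁ ⟨x, hx⟩
            exact hp1 (Sum.elim J₁ J₂) x hx)
        (by
          intro J₁
          refine mem_kil.2 (killed_iff.2 fun u v huv => ?_)
          funext J₂
          by_cases hu : κ u = i
          · refine Finset.sum_eq_zero fun j _ => ?_
            simp only
            rw [hp2 (Sum.elim J₁ (update J₂ j u)) j (by simpa using hu),
              hp2 (Sum.elim J₁ (update J₂ j v)) j (by simpa using (by rw [← huv]; exact hu)),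
              ite_self, ite_self, sub_zero]
          · by_cases hJ : ∃ x, κ (J₁ x) ≠ i
            · obtain ⟨x, hx⟩ := hJ
              refine Finset.sum_eq_zero fun j _ => ?_
              simp only
              rw [hp1 (Sum.elim J₁ (update J₂ j u)) x hx,
                hp1 (Sum.elim J₁ (update J₂ j v)) x hx, ite_self, ite_self, sub_zero]
            · push Not at hJ
              have h1 := op_right (u := u) (v := v) (f := f') (Sum.elim J₁ J₂)
                (fun x => ⟨fun h => hu (by
                    have : J₁ x = u := h
                    rw [← this, hJ x]), fun h => hu (by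
                    have : J₁ x = v := h
                    rw [huv, ← this, hJ x])⟩)
                (congrFun (killed_iff.1 hk' u v huv) _)
              exact h1)
      have hf'A : f' ∈ 𝒜.A ({x // c x = i} ⊕ {x // ¬ c x = i}) := by
        have h1 : f' = ∑ k, (fun J => g k (J ∘ Sum.inl) * h k (J ∘ Sum.inr)) := by
          funext J
          rw [Finset.sum_apply, ← hgh]
          congr 1
          funext x
          rcases x with x | x <;> rfl
        rw [h1]
        refine Submodule.sum_mem _ fun k _ => ?_
        apply 𝒜.tens_mem'
        · exact single_mem 𝒜 (hD i) (hg k).1 (hg k).2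
        · refine ih (Fintype.card {x // ¬ c x = i}) ?_ _ _ rfl (mem_kil.1 (hh k))
          rw [← hN]
          exact Fintype.card_subtype_lt (x := x0) (fun h => h rfl)
      have h2 := 𝒜.rename e _ hf'A
      convert h2 using 1
      funext J
      simp only [hf']
      congr 1
      funext x
      simp

/-- **Main theorem.** A system contains all forms killed by the orthogonal Lie algebras of the
blocks, in any number of variables, if and only if it contains the alternating ones in as many
variables as the dimension of a block. -/
theorem main [CharZero K] [Fintype ι] :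
    (∀ (S : Type) [Fintype S] [DecidableEq S] (t : Form K B S), Killed κ t → t ∈ 𝒜.A S) ↔
      ∀ (i : ι) (t : Form K B {b // κ b = i}), IsAlt t → Killed κ t → t ∈ 𝒜.A {b // κ b = i} :=
  ⟨fun h _ t _ ht => h _ t ht, fun h S _ _ t ht => main_aux 𝒜
    (fun i => h i _ isAlt_detForm killed_detForm) (Fintype.card S) S t rfl ht⟩

end Pool.Agent.R914.K3P
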