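import Pool.Agent.R914.K3P.KSDefs
import Pool.Agent.R914.K3P.Main

/-!
# The Kuga-Satake correspondence: proofs
-/

set_option linter.unusedSectionVars false

open Finset Function

universe u

namespace Pool.Agent.R914.K3P

variable {K : Type u} [Field K] {B ι N : Type} [Fintype B] [DecidableEq B] [Fintype N]
  [DecidableEq N] [DecidableEq ι] {κ : B → ι} {i : ι} {L : B → Matrix N N K}

/-- the product -/
def P (L : B → Matrix N N K) {m : ℕ} (J : Fin m → B) : Matrix N N K :=
  (List.ofFn fun j => L (J j)).prod

theorem P_zero (J : Fin 0 → B) : P L J = 1 := by simp [P]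

theorem P_succ {m : ℕ} (J : Fin (m + 1) → B) : P L J = L (J 0) * P L (fun j => J j.succ) := by
  unfold P
  rw [List.ofFn_succ, List.prod_cons]

theorem occ_succ {m : ℕ} (J : Fin (m + 1) → B) (w : B) :
    occ J w = (if J 0 = w then 1 else 0) + occ (fun j : Fin m => J j.succ) w := by
  unfold occ
  simp only [Finset.card_filter, Fin.sum_univ_succ]

theorem P_conj (hL : IsClifford L) (w : B) : ∀ {m : ℕ} (J : Fin m → B),
    L w * P L J = (-1 : K) ^ (m + occ J w) • (P L J * L w) := by
  intro m
  induction m with
  | zero => intro J; rw [P_zero, mul_one, one_mul]; simp [occ]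
  | succ m ih =>
    intro J
    have h := ih (fun j => J j.succ)
    rw [P_succ, occ_succ]
    by_cases hw : J 0 = w
    · rw [if_pos hw, hw]
      have h1 : L w * P L (fun j => J j.succ) * L w =
          (-1 : K) ^ (m + occ (fun j : Fin m => J j.succ) w) • P L (fun j => J j.succ) := by
        rw [h, smul_mul_assoc, mul_assoc, hL.1, mul_one]
      rw [h1, smul_smul, ← pow_add, ← mul_assoc, hL.1, one_mul]
      have h2 : (-1 : K) ^ (m + 1 + (1 + occ (fun j : Fin m => J j.succ) w) +
          (m + occ (fun j : Fin m => J j.succ) w)) = 1 := by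
        apply Even.neg_one_pow
        exact ⟨m + occ (fun j : Fin m => J j.succ) w + 1, by ring⟩
      rw [h2, one_smul]
    · rw [if_neg hw, ← mul_assoc, hL.2 w (J 0) (Ne.symm hw), neg_mul, mul_assoc, h,
        mul_smul_comm, ← mul_assoc, ← neg_smul]
      congr 1
      rw [show m + 1 + (0 + occ (fun j : Fin m => J j.succ) w) =
        m + occ (fun j : Fin m => J j.succ) w + 1 by ring, pow_succ]
      ring

theorem isUnit_P (hL : IsClifford L) : ∀ {m : ℕ} (J : Fin m → B), IsUnit (P L J) := by
  intro m
  induction m with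
  | zero => intro J; rw [P_zero]; exact isUnit_one
  | succ m ih =>
    intro J
    rw [P_succ]
    exact (IsUnit.of_mul_eq_one _ (hL.1 (J 0))).mul (ih _)

/-- Exchange of two neighbours. -/
theorem P_swap (hL : IsClifford L) : ∀ {n : ℕ} (a : Fin n) (J : Fin (n + 1) → B), Injective J →
    P L (J ∘ Equiv.swap a.castSucc a.succ) = -P L J := by
  intro n
  induction n with
  | zero => intro a; exact a.elim0
  | succ n ih =>
    intro a J hJ
    refine Fin.cases ?_ (fun a' => ?_) a
    · have h01 : J 0 ≠ J 1 := fun h => by
        have := hJ h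
        exact absurd this (by simp)
      rw [P_succ, P_succ, P_succ J, P_succ (fun j => J j.succ)]
      have e0 : (J ∘ Equiv.swap (Fin.castSucc 0) (Fin.succ 0)) 0 = J 1 := by
        simp
      have e1 : (J ∘ Equiv.swap (Fin.castSucc 0) (Fin.succ 0)) (Fin.succ 0) = J 0 := by
        simp
      have e2 : (fun j : Fin n => (J ∘ Equiv.swap (Fin.castSucc (0 : Fin (n + 1)))
          (Fin.succ 0)) j.succ.succ) = fun j : Fin n => J j.succ.succ := by
        funext j
        rw [comp_apply, Equiv.swap_apply_of_ne_of_ne]
        · exact Fin.succ_ne_zero _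
        · intro h
          exact Fin.succ_ne_zero _ (Fin.succ_injective _ h)
      rw [e0, e1, e2]
      rw [← mul_assoc, ← mul_assoc, hL.2 (J 1) (J 0) (Ne.symm h01), neg_mul]
      rfl
    · rw [P_succ, P_succ J]
      have e0 : (J ∘ Equiv.swap (Fin.castSucc a'.succ) (Fin.succ a'.succ)) 0 = J 0 := by
        rw [comp_apply, Equiv.swap_apply_of_ne_of_ne]
        · rw [← Fin.succ_castSucc]; exact (Fin.succ_ne_zero _).symm
        · exact (Fin.succ_ne_zero _).symm
      have e1 : (fun j : Fin (n + 1) => (J ∘ Equiv.swap (Fin.castSucc a'.succ)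
          (Fin.succ a'.succ)) j.succ) =
          (fun j => J j.succ) ∘ Equiv.swap a'.castSucc a'.succ := by
        funext j
        simp only [comp_apply]
        congr 1
        rw [← Fin.succ_castSucc]
        simp only [Equiv.swap_apply_def, Fin.succ_inj]
        split_ifs <;> rfl
      rw [e0, e1, ih a' (fun j => J j.succ) (hJ.comp (Fin.succ_injective _)), mul_neg]

theorem P_perm (hL : IsClifford L) {m : ℕ} (σ : Equiv.Perm (Fin m)) :
    ∀ (J : Fin m → B), Injective J →
      P L (J ∘ σ) = ((Equiv.Perm.sign σ : ℤ) : K) • P L J := by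
  rcases m with _ | n
  · intro J _
    have : σ = 1 := Subsingleton.elim _ _
    subst this
    rw [map_one]
    simp [P_zero]
  · have hσ : σ ∈ Submonoid.closure
        (Set.range fun a : Fin n => Equiv.swap a.castSucc a.succ) := by
      rw [Equiv.Perm.mclosure_swap_castSucc_succ]; trivial
    induction hσ using Submonoid.closure_induction with
    | mem σ hσ =>
      obtain ⟨a, rfl⟩ := hσ
      intro J hJ
      have hne : a.castSucc ≠ a.succ := (Fin.castSucc_lt_succ).ne
      rw [P_swap hL a J hJ, Equiv.Perm.sign_swap hne]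
      simp
    | one => intro J _; simp
    | mul σ τ _ _ h1 h2 =>
      intro J hJ
      have e1 : J ∘ (σ * τ : Equiv.Perm (Fin (n + 1))) = (J ∘ σ) ∘ τ := rfl
      rw [e1, h2 (J ∘ σ) (hJ.comp σ.injective), h1 J hJ, smul_smul]
      congr 1
      rw [map_mul]
      push_cast
      ring

theorem detForm_perm (π : Equiv.Perm {b // κ b = i}) :
    detForm K κ i (fun x => (π x).1) = ((Equiv.Perm.sign π : ℤ) : K) := by
  have h3 : mat K κ i (fun x => (π x).1) = (1 : Matrix _ _ K).submatrix π id := by
    ext a b
    simp only [mat, Matrix.of_apply, Matrix.submatrix_apply, id, Matrix.one_apply]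
    congr 1
    rw [eq_iff_iff]
    constructor
    · intro h; exact Subtype.ext h
    · intro h; rw [← h]
  rw [detForm, h3, Matrix.det_permute, Matrix.det_one, mul_one]

theorem neg_one_pow_mul_eq {a b : ℕ} (h : ¬ Even (a + b)) :
    (-1 : K) ^ a * (-1 : K) ^ b = -1 := by
  rw [← pow_add]
  exact (Nat.not_even_iff_odd.1 h).neg_one_pow

/-- **Main theorem.** -/
theorem kugaSatake [CharZero K] [Fintype ι] [Nonempty N] (𝒜 : System K B) (hL : IsClifford L)
    (hA : IsAlgebraicKugaSatake κ 𝒜 L) (S : Type) [Fintype S] [DecidableEq S] (t : Form K B S)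
    (ht : Killed κ t) : t ∈ 𝒜.A S := by
  classical
  refine main_aux 𝒜 (fun i => ?_) (Fintype.card S) S t rfl ht
  -- the product of the vectors of the block
  set r := Fintype.card {b // κ b = i} with hr
  set f : Fin r ≃ {b // κ b = i} := (Fintype.equivFin _).symm with hf
  set F : Fin r → B := fun j => (f j).1 with hF
  have hFinj : Injective F := Subtype.val_injective.comp f.injective
  have hocc : ∀ w, occ F w = if κ w = i then 1 else 0 := by
    intro w
    unfold occ
    by_cases hw : κ w = i
    · rw [if_pos hw, Finset.card_eq_one]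
      refine ⟨f.symm ⟨w, hw⟩, ?_⟩
      ext j
      simp only [Finset.mem_filter, Finset.mem_univ, true_and, Finset.mem_singleton, hF]
      rw [Equiv.eq_symm_apply]
      exact ⟨fun h => Subtype.ext h, fun h => by rw [h]⟩
    · rw [if_neg hw, Finset.card_eq_zero, Finset.filter_eq_empty_iff]
      intro j _ h
      exact hw (by rw [← h]; exact (f j).2)
  obtain ⟨u, hu⟩ := isUnit_P hL F
  set z : Matrix N N K := (↑u⁻¹ : Matrix N N K) with hz
  have hz1 : P L F * z = 1 := by rw [← hu]; exact u.mul_inv
  have hz2 : z * P L F = 1 := by rw [← hu]; exact u.inv_mul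
  -- commutation with `L w`
  have hzc : ∀ w, z * L w = (-1 : K) ^ (r + occ F w) • (L w * z) := by
    intro w
    have h1 := P_conj hL w F
    have h2 : z * (L w * P L F) * z = z * ((-1 : K) ^ (r + occ F w) • (P L F * L w)) * z := by
      rw [h1]
    rw [mul_smul_comm, smul_mul_assoc, ← mul_assoc z (P L F), hz2, one_mul, mul_assoc,
      mul_assoc (L w), hz1, mul_one] at h2
    exact h2
  have hzc' : ∀ w, L w * z = (-1 : K) ^ (r + occ F w) • (z * L w) := by
    intro w
    rw [hzc w, smul_smul, ← pow_add]
    rw [Even.neg_one_pow ⟨_, rfl⟩, one_smul]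
  have hend : IsEnd κ L z := by
    intro a b hab _
    have h1 : occ F a = occ F b := by rw [hocc, hocc, hab]
    rw [← mul_assoc, hzc a, smul_mul_assoc, mul_assoc (L a) z, hzc b, mul_smul_comm, smul_smul,
      h1, ← pow_add, Even.neg_one_pow ⟨_, rfl⟩, one_smul, ← mul_assoc]
  have hs := hA z hend r
  -- parity
  have hpar : ∀ J : Fin r → B, (P L J * z).trace ≠ 0 → ∀ w, Even (occ J w + occ F w) := by
    intro J hJ w
    by_contra hodd
    apply hJ
    have h1 : (P L J * z).trace = (L w * (P L J * z) * L w).trace := by
      rw [Matrix.trace_mul_comm (L w * (P L J * z)) (L w), ← mul_assoc, hL.1, one_mul]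
    have h2 : L w * (P L J * z) * L w =
        ((-1 : K) ^ (r + occ J w) * (-1 : K) ^ (r + occ F w)) • (P L J * z) := by
      rw [← mul_assoc, P_conj hL w J, smul_mul_assoc, mul_assoc (P L J) (L w) z, hzc' w,
        mul_smul_comm, smul_smul, smul_mul_assoc, mul_assoc (P L J), mul_assoc z, hL.1, mul_one]
    have h3 : ¬ Even (r + occ J w + (r + occ F w)) := by
      intro h4
      apply hodd
      have h5 : r + occ J w + (r + occ F w) = occ J w + occ F w + 2 * r := by ring
      rw [h5, Nat.even_add] at h4
      exact h4.2 (even_two_mul r)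
    rw [h2, neg_one_pow_mul_eq h3, neg_one_smul, Matrix.trace_neg] at h1
    have h6 : (2 : K) * (P L J * z).trace = 0 := by linear_combination h1
    rcases mul_eq_zero.1 h6 with h7 | h7
    · exact absurd h7 two_ne_zero
    · exact h7
  have hbij : ∀ J : Fin r → B, (P L J * z).trace ≠ 0 → Injective J ∧ ∀ x, κ (J x) = i := by
    intro J hJ
    have h1 := hpar J hJ
    have hsub : (univ.filter fun b => κ b = i) ⊆ univ.image J := by
      intro w hw
      have hw' : κ w = i := (Finset.mem_filter.1 hw).2
      have h2 := h1 w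
      rw [hocc, if_pos hw'] at h2
      have h3 : occ J w ≠ 0 := by
        intro h; rw [h] at h2; exact absurd h2 (by decide)
      unfold occ at h3
      obtain ⟨x, hx⟩ := Finset.card_ne_zero.1 h3
      exact Finset.mem_image.2 ⟨x, Finset.mem_univ _, (Finset.mem_filter.1 hx).2⟩
    have hcard : (univ.filter fun b => κ b = i).card = r := by
      rw [hr, Fintype.card_subtype]
    have hle : (univ.image J).card ≤ r := by
      refine Finset.card_image_le.trans ?_
      rw [Finset.card_univ, Fintype.card_fin]
    have heq : (univ.filter fun b => κ b = i) = univ.image J :=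
      Finset.eq_of_subset_of_card_le hsub (by rw [hcard]; exact hle)
    constructor
    · have h2 : (univ.image J).card = (univ : Finset (Fin r)).card := by
        rw [← heq, hcard, Finset.card_univ, Fintype.card_fin]
      have h3 := Finset.card_image_iff.1 h2
      intro x y hxy
      exact h3 (Finset.mem_coe.2 (Finset.mem_univ x)) (Finset.mem_coe.2 (Finset.mem_univ y)) hxy
    · intro x
      have h2 : J x ∈ univ.image J := Finset.mem_image_of_mem _ (Finset.mem_univ _)
      rw [← heq] at h2
      exact (Finset.mem_filter.1 h2).2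
  -- the trace form is a multiple of the determinant
  have hN : (Fintype.card N : K) ≠ 0 := by exact_mod_cast Fintype.card_ne_zero
  have h1 := Submodule.smul_mem _ (Fintype.card N : K)⁻¹ (𝒜.rename f _ hs)
  convert h1 using 1
  funext J
  rw [Pi.smul_apply, smul_eq_mul]
  show detForm K κ i J = (Fintype.card N : K)⁻¹ * (P L (J ∘ f) * z).trace
  by_cases hJ : Injective J ∧ ∀ x, κ (J x) = i
  · have hinj : Injective (fun x => (⟨J x, hJ.2 x⟩ : {b // κ b = i})) := by
      intro a b hab
      exact hJ.1 (congrArg Subtype.val hab)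
    set π : Equiv.Perm {b // κ b = i} :=
      Equiv.ofBijective _ (Finite.injective_iff_bijective.1 hinj) with hπ
    have hJπ : J = fun x => (π x).1 := rfl
    set σ : Equiv.Perm (Fin r) := (f.trans π).trans f.symm with hσ
    have h2 : J ∘ f = F ∘ σ := by
      funext x
      simp only [comp_apply, hF, hσ, Equiv.trans_apply, Equiv.apply_symm_apply, hJπ]
    rw [h2, P_perm hL σ F hFinj, smul_mul_assoc, hz1, Matrix.trace_smul, Matrix.trace_one,
      smul_eq_mul, hσ, Equiv.Perm.sign_trans_trans_symm, hJπ, detForm_perm]
    field_simp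
  · have h2 : detForm K κ i J = 0 := by
      by_contra h
      exact hJ (detForm_ne.1 h)
    have h3 : (P L (J ∘ f) * z).trace = 0 := by
      by_contra h
      obtain ⟨h4, h5⟩ := hbij _ h
      apply hJ
      constructor
      · intro x y hxy
        have := h4 (a₁ := f.symm x) (a₂ := f.symm y) (by simpa using hxy)
        exact f.symm.injective this
      · intro x
        have := h5 (f.symm x)
        simpa using this
    rw [h2, h3, mul_zero]

end Pool.Agent.R914.K3P
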