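import Pool.Agent.R914.K3P.Defs

/-!
# Forms killed by the orthogonal Lie algebras of the blocks: basic properties
-/

set_option linter.unusedSectionVars false

open Finset Function

universe u

namespace Pool.Agent.R914.K3P

variable {K : Type u} [Field K] {B ι : Type} [Fintype B] [DecidableEq B]

section killed

variable {S S' : Type} [Fintype S] [DecidableEq S] [Fintype S'] [DecidableEq S']

/-- the operator -/
def op (u v : B) (t : Form K B S) : Form K B S := fun J =>
  ∑ j, ((if J j = v then t (update J j u) else 0) -
      (if J j = u then t (update J j v) else 0))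

theorem killed_iff {κ : B → ι} {t : Form K B S} :
    Killed κ t ↔ ∀ u v : B, κ u = κ v → op u v t = 0 := by
  constructor
  · intro h u v huv
    funext J
    exact h u v huv J
  · intro h u v huv J
    exact congrFun (h u v huv) J

theorem op_add (u v : B) (t s : Form K B S) : op u v (t + s) = op u v t + op u v s := by
  funext J
  simp only [op, Pi.add_apply]
  rw [← Finset.sum_add_distrib]
  refine Finset.sum_congr rfl fun j _ => ?_
  split_ifs <;> ring

theorem op_smul (u v : B) (c : K) (t : Form K B S) : op u v (c • t) = c • op u v t := by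
  funext J
  simp only [op, Pi.smul_apply, smul_eq_mul]
  rw [Finset.mul_sum]
  refine Finset.sum_congr rfl fun j _ => ?_
  split_ifs <;> ring

theorem op_self (u : B) (t : Form K B S) : op u u t = 0 := by
  funext J
  simp [op]

/-- The space of killed forms. -/
def kil (κ : B → ι) (S : Type) [Fintype S] [DecidableEq S] : Submodule K (Form K B S) where
  carrier := {t | Killed κ t}
  zero_mem' := by
    intro u v _ J
    simp
  add_mem' := by
    intro a b ha hb
    have ha' := killed_iff.1 ha
    have hb' := killed_iff.1 hb
    refine killed_iff.2 fun u v huv => ?_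
    rw [op_add, ha' u v huv, hb' u v huv, add_zero]
  smul_mem' := by
    intro c a ha
    have ha' := killed_iff.1 ha
    refine killed_iff.2 fun u v huv => ?_
    rw [op_smul, ha' u v huv, smul_zero]

theorem mem_kil {κ : B → ι} {t : Form K B S} : t ∈ kil κ S ↔ Killed κ t := Iff.rfl

/-- Renaming of variables. -/
theorem killed_rename {κ : B → ι} (e : S ≃ S') {t : Form K B S} (ht : Killed κ t) :
    Killed κ (fun J : S' → B => t (J ∘ e)) := by
  intro u v huv J
  refine Eq.trans ?_ (ht u v huv (J ∘ e))
  rw [← e.sum_comp]
  refine Finset.sum_congr rfl fun j _ => ?_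
  have h1 : ∀ w : B, update J (e j) w ∘ e = update (J ∘ e) j w := by
    intro w
    funext x
    simp only [comp_apply, update_apply, e.injective.eq_iff]
  show ((if J (e j) = v then t (update J (e j) u ∘ e) else 0) -
    if J (e j) = u then t (update J (e j) v ∘ e) else 0) = _
  rw [h1, h1]
  rfl

/-- The restriction to the values `J` for which the function `p` is true is killed, if `p` is
invariant. -/
theorem killed_ite {κ : B → ι} {t : Form K B S} (ht : Killed κ t) (p : (S → B) → Prop)
    [DecidablePred p] (hp : ∀ u v : B, κ u = κ v → u ≠ v →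
      (∀ (J : S → B) (j : S), J j = v → (p (update J j u) ↔ p J)) ∨
      (∀ J : S → B, ∃ q : Prop, ∀ (j : S), (J j = v → (p (update J j u) ↔ q)) ∧
        (J j = u → (p (update J j v) ↔ q)))) :
    Killed κ (fun J => if p J then t J else 0) := by
  classical
  intro u v huv J
  by_cases huv' : u = v
  · subst huv'; simp
  · have key : ∃ q : Prop, ∀ (j : S), (J j = v → (p (update J j u) ↔ q)) ∧
        (J j = u → (p (update J j v) ↔ q)) := by
      rcases hp u v huv huv' with h | h
      · rcases hp v u huv.symm (Ne.symm huv') with h' | h'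
        · exact ⟨p J, fun j => ⟨fun hj => h J j hj, fun hj => h' J j hj⟩⟩
        · obtain ⟨q, hq⟩ := h' J
          exact ⟨q, fun j => ⟨(hq j).2, (hq j).1⟩⟩
      · exact h J
    obtain ⟨q, hq⟩ := key
    have h := ht u v huv J
    by_cases hq' : q
    · refine Eq.trans ?_ h
      refine Finset.sum_congr rfl fun j _ => ?_
      congr 1
      · by_cases hj : J j = v
        · rw [if_pos hj, if_pos hj]
          exact if_pos (((hq j).1 hj).2 hq')
        · rw [if_neg hj, if_neg hj]
      · by_cases hj : J j = u
        · rw [if_pos hj, if_pos hj]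
          exact if_pos (((hq j).2 hj).2 hq')
        · rw [if_neg hj, if_neg hj]
    · refine Finset.sum_eq_zero fun j _ => ?_
      have h1 : (if J j = v then (if p (update J j u) then t (update J j u) else 0) else 0)
          = 0 := by
        by_cases hj : J j = v
        · rw [if_pos hj, if_neg (fun h => hq' (((hq j).1 hj).1 h))]
        · rw [if_neg hj]
      have h2 : (if J j = u then (if p (update J j v) then t (update J j v) else 0) else 0)
          = 0 := by
        by_cases hj : J j = u
        · rw [if_pos hj, if_neg (fun h => hq' (((hq j).2 hj).1 h))]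
        · rw [if_neg hj]
      rw [h1, h2, sub_zero]

/-- number of occurrences -/
def occ (J : S → B) (o : B) : ℕ := (univ.filter fun j => J j = o).card

theorem occ_update_of_ne {J : S → B} {j : S} {o w : B} (h1 : J j ≠ o) (h2 : w ≠ o) :
    occ (update J j w) o = occ J o := by
  unfold occ
  congr 1
  ext x
  simp only [Finset.mem_filter, Finset.mem_univ, true_and, update_apply]
  by_cases hx : x = j
  · subst hx; simp [h1, h2]
  · simp [hx]

theorem occ_update_add {J : S → B} {j : S} {o : B} (h1 : J j ≠ o) :
    occ (update J j o) o = occ J o + 1 := by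
  unfold occ
  have : (univ.filter fun x => update J j o x = o) = insert j (univ.filter fun x => J x = o) := by
    ext x
    simp only [Finset.mem_filter, Finset.mem_univ, true_and, update_apply, Finset.mem_insert]
    by_cases hx : x = j
    · simp [hx]
    · simp [hx]
  rw [this, Finset.card_insert_of_notMem]
  simp [h1]

theorem occ_update_sub {J : S → B} {j : S} {o w : B} (h1 : J j = o) (h2 : w ≠ o) :
    occ (update J j w) o + 1 = occ J o := by
  have h3 : J = update (update J j w) j o := by
    rw [update_idem, ← h1, update_eq_self]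
  conv_rhs => rw [h3]
  rw [occ_update_add]
  rw [update_self]; exact h2

/-- The parity projection. -/
theorem killed_even {κ : B → ι} {t : Form K B S} (ht : Killed κ t) (o : B) :
    Killed κ (fun J => if Even (occ J o) then t J else 0) := by
  apply killed_ite ht
  intro u v _ huv
  by_cases hu : u = o
  · right
    intro J
    refine ⟨Odd (occ J o), fun j => ⟨fun hj => ?_, fun hj => ?_⟩⟩
    · rw [hu, occ_update_add (by rw [hj, ← hu]; exact Ne.symm huv), Nat.even_add_one,
        Nat.not_even_iff_odd]
    · have h1 := occ_update_sub (J := J) (j := j) (o := o) (w := v) (by rw [hj, hu])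
        (by rw [← hu]; exact Ne.symm huv)
      rw [← h1, Nat.odd_add_one, Nat.not_odd_iff_even]
  · by_cases hv : v = o
    · right
      intro J
      refine ⟨Odd (occ J o), fun j => ⟨fun hj => ?_, fun hj => ?_⟩⟩
      · have h1 := occ_update_sub (J := J) (j := j) (o := o) (w := u) (by rw [hj, hv]) hu
        rw [← h1, Nat.odd_add_one, Nat.not_odd_iff_even]
      · rw [hv, occ_update_add (by rw [hj]; exact hu), Nat.even_add_one, Nat.not_even_iff_odd]
    · left
      intro J j hj
      rw [occ_update_of_ne (by rw [hj]; exact hv) hu]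

/-- The projection to a pattern. -/
theorem killed_pattern [DecidableEq ι] {κ : B → ι} {t : Form K B S} (ht : Killed κ t)
    (c : S → ι) : Killed κ (fun J => if (∀ j, κ (J j) = c j) then t J else 0) := by
  apply killed_ite ht
  intro u v huv _
  left
  intro J j hj
  have : ∀ x, κ (update J j u x) = κ (J x) := by
    intro x
    by_cases hx : x = j
    · subst hx; rw [update_self, hj, huv]
    · rw [update_of_ne hx]
  simp only [this]

/-- The product of forms. -/
def tens (t : Form K B S) (s : Form K B S') : Form K B (S ⊕ S') :=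
  fun J => t (J ∘ Sum.inl) * s (J ∘ Sum.inr)

theorem killed_tens {κ : B → ι} {t : Form K B S} {s : Form K B S'} (ht : Killed κ t)
    (hs : Killed κ s) : Killed κ (tens t s) := by
  intro u v huv J
  have h1 := ht u v huv (J ∘ Sum.inl)
  have h2 := hs u v huv (J ∘ Sum.inr)
  have e1 : ∀ (j : S) (w : B), (update J (Sum.inl j) w) ∘ Sum.inl = update (J ∘ Sum.inl) j w := by
    intro j w; funext x; simp [update_apply]
  have e2 : ∀ (j : S) (w : B), (update J (Sum.inl j) w) ∘ Sum.inr = J ∘ Sum.inr := by
    intro j w; funext x; simp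
  have e3 : ∀ (j : S') (w : B), (update J (Sum.inr j) w) ∘ Sum.inl = J ∘ Sum.inl := by
    intro j w; funext x; simp
  have e4 : ∀ (j : S') (w : B), (update J (Sum.inr j) w) ∘ Sum.inr =
      update (J ∘ Sum.inr) j w := by
    intro j w; funext x; simp [update_apply]
  rw [Fintype.sum_sum_type]
  simp only [tens, e1, e2, e3, e4]
  have h3 : ∑ x : S, ((if J (Sum.inl x) = v then
      t (update (J ∘ Sum.inl) x u) * s (J ∘ Sum.inr) else 0) -
      if J (Sum.inl x) = u then t (update (J ∘ Sum.inl) x v) * s (J ∘ Sum.inr) else 0) =
      (∑ j, ((if (J ∘ Sum.inl) j = v then t (update (J ∘ Sum.inl) j u) else 0) -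
      (if (J ∘ Sum.inl) j = u then t (update (J ∘ Sum.inl) j v) else 0))) * s (J ∘ Sum.inr) := by
    rw [Finset.sum_mul]
    refine Finset.sum_congr rfl fun j _ => ?_
    simp only [comp_apply]
    split_ifs <;> ring
  have h4 : ∑ x : S', ((if J (Sum.inr x) = v then
      t (J ∘ Sum.inl) * s (update (J ∘ Sum.inr) x u) else 0) -
      if J (Sum.inr x) = u then t (J ∘ Sum.inl) * s (update (J ∘ Sum.inr) x v) else 0) =
      t (J ∘ Sum.inl) * (∑ j, ((if (J ∘ Sum.inr) j = v then s (update (J ∘ Sum.inr) j u) else 0) -
      (if (J ∘ Sum.inr) j = u then s (update (J ∘ Sum.inr) j v) else 0))) := by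
    rw [Finset.mul_sum]
    refine Finset.sum_congr rfl fun j _ => ?_
    simp only [comp_apply]
    split_ifs <;> ring
  rw [h3, h4, h1, h2, zero_mul, mul_zero, add_zero]

/-- Fixing the second variables of a killed form, if the operator does not move them. -/
theorem op_left {f : Form K B (S ⊕ S')} {u v : B} (J : S ⊕ S' → B)
    (hJ : ∀ x, J (Sum.inr x) ≠ u ∧ J (Sum.inr x) ≠ v) (h : op u v f J = 0) :
    op u v (fun J₁ : S → B => f (Sum.elim J₁ (J ∘ Sum.inr))) (J ∘ Sum.inl) = 0 := by
  refine Eq.trans ?_ h
  unfold op
  rw [Fintype.sum_sum_type]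
  have h0 : ∑ x : S', ((if J (Sum.inr x) = v then f (update J (Sum.inr x) u) else 0) -
      if J (Sum.inr x) = u then f (update J (Sum.inr x) v) else 0) = 0 := by
    refine Finset.sum_eq_zero fun x _ => ?_
    rw [if_neg (hJ x).2, if_neg (hJ x).1, sub_zero]
  rw [h0, add_zero]
  refine Finset.sum_congr rfl fun j _ => ?_
  have e1 : ∀ w : B, Sum.elim (update (J ∘ Sum.inl) j w) (J ∘ Sum.inr) =
      update J (Sum.inl j) w := by
    intro w
    funext x
    rcases x with x | x
    · simp [update_apply]
    · simp
  show ((if J (Sum.inl j) = v then f (Sum.elim (update (J ∘ Sum.inl) j u) (J ∘ Sum.inr)) else 0) -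
    if J (Sum.inl j) = u then f (Sum.elim (update (J ∘ Sum.inl) j v) (J ∘ Sum.inr)) else 0) = _
  rw [e1, e1]

theorem op_right {f : Form K B (S ⊕ S')} {u v : B} (J : S ⊕ S' → B)
    (hJ : ∀ x, J (Sum.inl x) ≠ u ∧ J (Sum.inl x) ≠ v) (h : op u v f J = 0) :
    op u v (fun J₂ : S' → B => f (Sum.elim (J ∘ Sum.inl) J₂)) (J ∘ Sum.inr) = 0 := by
  refine Eq.trans ?_ h
  unfold op
  rw [Fintype.sum_sum_type]
  have h0 : ∑ x : S, ((if J (Sum.inl x) = v then f (update J (Sum.inl x) u) else 0) -
      if J (Sum.inl x) = u then f (update J (Sum.inl x) v) else 0) = 0 := by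
    refine Finset.sum_eq_zero fun x _ => ?_
    rw [if_neg (hJ x).2, if_neg (hJ x).1, sub_zero]
  rw [h0, zero_add]
  refine Finset.sum_congr rfl fun j _ => ?_
  have e1 : ∀ w : B, Sum.elim (J ∘ Sum.inl) (update (J ∘ Sum.inr) j w) =
      update J (Sum.inr j) w := by
    intro w
    funext x
    rcases x with x | x
    · simp
    · simp [update_apply]
  show ((if J (Sum.inr j) = v then f (Sum.elim (J ∘ Sum.inl) (update (J ∘ Sum.inr) j u)) else 0) -
    if J (Sum.inr j) = u then f (Sum.elim (J ∘ Sum.inl) (update (J ∘ Sum.inr) j v)) else 0) = _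
  rw [e1, e1]

end killed

end Pool.Agent.R914.K3P
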