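import Mathlib

/-!
# Algebraic classes on the powers of a K3 surface with totally real multiplication: definitions

In the intended use `X` is a complex projective K3 surface with transcendental part `T`, whose
endomorphism field `E` is totally real. Then `T ⊗ ℂ` is the orthogonal direct sum of the
eigenspaces `T_σ` of `E`, where `σ` runs over the embeddings of `E` and all `T_σ` have the same
dimension. An orthonormal basis `B` of `T ⊗ ℂ` consists of orthonormal bases of the spaces `T_σ`;
the map `κ` tells to which space a basis vector belongs. Tensors in the powers of `T ⊗ ℂ` are
identified with multilinear forms.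
-/

open Finset Function

universe u

namespace Pool.Agent.R914.K3P

/-- The multilinear forms on the vector space `K ^ B`, in variables indexed by the set `S`: such a
form is given by its values `t J` on the basis vectors, `J : S → B`. -/
abbrev Form (K : Type u) (B S : Type) : Type u := (S → B) → K

variable {K : Type u} [Field K] {B ι : Type} [Fintype B] [DecidableEq B]

/-- The form `t` on the space `K ^ B` with the standard scalar product is killed by the Lie algebras
`so(V i)` of the blocks: `V i` is spanned by the basis vectors `b` with `κ b = i`, and the operators
are `x ↦ (v, x) u - (u, x) v` for basis vectors `u`, `v` of the same block, acting as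
derivations. -/
def Killed (κ : B → ι) {S : Type} [Fintype S] [DecidableEq S] (t : Form K B S) : Prop :=
  ∀ u v : B, κ u = κ v → ∀ J : S → B,
    ∑ j, ((if J j = v then t (update J j u) else 0) -
      (if J j = u then t (update J j v) else 0)) = 0

/-- The form `t` is alternating. -/
def IsAlt {S : Type} [Fintype S] [DecidableEq S] (t : Form K B S) : Prop :=
  ∀ (σ : Equiv.Perm S) (J : S → B), t (J ∘ σ) = ((Equiv.Perm.sign σ : ℤ) : K) * t J

/-- The scalar product. -/
def scalarForm (K : Type u) [Field K] (B : Type) [DecidableEq B] : Form K B Bool :=
  fun J => if J true = J false then 1 else 0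

/-- The composition of forms in the variables `S ⊕ U` and `U ⊕ S'`, regarded as homomorphisms
between tensor powers by means of the scalar product. -/
def comp {S U S' : Type} [Fintype U] [DecidableEq U] (t : Form K B (S ⊕ U))
    (s : Form K B (U ⊕ S')) : Form K B (S ⊕ S') :=
  fun J => ∑ I : U → B, t (Sum.elim (J ∘ Sum.inl) I) * s (Sum.elim I (J ∘ Sum.inr))

/-- A system of spaces of forms `A S` in finite sets `S` of variables which contains the constants
and the scalar product and is stable under renaming of the variables and under composition. In the
intended use, `A S` is the space of the linear combinations, with complex coefficients, of the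
classes in `T ^ ⊗ S` of algebraic cycles on the power `X ^ S`. -/
structure System (K : Type u) [Field K] (B : Type) [Fintype B] [DecidableEq B] where
  /-- the spaces -/
  A : ∀ S : Type, Submodule K (Form K B S)
  const : (fun _ => 1 : Form K B Empty) ∈ A Empty
  scalar : scalarForm K B ∈ A Bool
  rename : ∀ {S S' : Type} [Finite S] [Finite S'] (e : S ≃ S') (t : Form K B S), t ∈ A S →
    (fun J => t (J ∘ e) : Form K B S') ∈ A S'
  comp : ∀ {S U S' : Type} [Finite S] [Fintype U] [DecidableEq U] [Finite S']
    (t : Form K B (S ⊕ U)) (s : Form K B (U ⊕ S')), t ∈ A (S ⊕ U) → s ∈ A (U ⊕ S') →
    K3P.comp t s ∈ A (S ⊕ S')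

end Pool.Agent.R914.K3P
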