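import Pool.Agent.R914.K3P.Basic

/-!
# The determinant form of a block
-/

set_option linter.unusedSectionVars false

open Finset Function

universe u

namespace Pool.Agent.R914.K3P

variable {K : Type u} [Field K] {B ι : Type} [Fintype B] [DecidableEq B] [DecidableEq ι]
  {κ : B → ι} {i : ι}

/-- the matrix of coordinates -/
def mat (K : Type u) [Field K] (κ : B → ι) (i : ι) (J : {b // κ b = i} → B) :
    Matrix {b // κ b = i} {b // κ b = i} K :=
  Matrix.of fun a b => if J a = b.1 then 1 else 0

/-- the determinant form -/
def detForm (K : Type u) [Field K] (κ : B → ι) (i : ι) : Form K B {b // κ b = i} :=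
  fun J => (mat K κ i J).det

theorem mat_update (J : {b // κ b = i} → B) (j : {b // κ b = i}) (w : B) :
    mat K κ i (update J j w) = (mat K κ i J).updateRow j (fun b => if w = b.1 then 1 else 0) := by
  ext a b
  by_cases h : a = j
  · subst h
    simp [mat, Matrix.updateRow_self]
  · simp [mat, Matrix.updateRow_ne h, update_of_ne h]

theorem det_updateRow_eq {n : Type} [Fintype n] [DecidableEq n] (M : Matrix n n K) (j : n)
    (w : n → K) : (M.updateRow j w).det = ∑ k, M.adjugate k j * w k := by
  have h1 : (M.updateRow j w).det = (M.transpose.cramer w) j :=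
    (Matrix.cramer_transpose_apply M w j).symm
  rw [h1, Matrix.cramer_eq_adjugate_mulVec, ← Matrix.adjugate_transpose]
  rfl

theorem sum_updateRow {n : Type} [Fintype n] [DecidableEq n] (M X : Matrix n n K) :
    ∑ j, (M.updateRow j ((M * X) j)).det = X.trace * M.det := by
  have h1 : ∑ j, (M.updateRow j ((M * X) j)).det = (M.adjugate * (M * X)).trace := by
    rw [Matrix.trace]
    simp only [det_updateRow_eq, Matrix.diag_apply]
    rw [Finset.sum_comm]
    refine Finset.sum_congr rfl fun k _ => ?_
    exact (Matrix.mul_apply (M := M.adjugate) (N := M * X) (i := k) (k := k)).symm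
  rw [h1, ← Matrix.mul_assoc, Matrix.adjugate_mul, Matrix.smul_mul, Matrix.one_mul,
    Matrix.trace_smul, smul_eq_mul, mul_comm]

theorem detForm_shift {u v : B} (huv : u ≠ v) (hk : κ u = κ v) (J : {b // κ b = i} → B) :
    ∑ j, (if J j = v then detForm K κ i (update J j u) else 0) = 0 := by
  by_cases hi : κ u = i
  · have hv : κ v = i := by rw [← hk, hi]
    set X : Matrix {b // κ b = i} {b // κ b = i} K :=
      Matrix.of fun a b => if a.1 = v ∧ b.1 = u then 1 else 0 with hX
    have h1 := sum_updateRow (mat K κ i J) X
    have h2 : X.trace = 0 := by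
      rw [Matrix.trace]
      refine Finset.sum_eq_zero fun a _ => ?_
      rw [Matrix.diag_apply, hX, Matrix.of_apply, if_neg]
      rintro ⟨h3, h4⟩
      exact huv (h4.symm.trans h3)
    rw [h2, zero_mul] at h1
    refine Eq.trans ?_ h1
    refine Finset.sum_congr rfl fun j _ => ?_
    have h3 : (mat K κ i J * X) j = if J j = v then
        (fun b : {b // κ b = i} => if u = b.1 then (1 : K) else 0) else 0 := by
      funext b
      rw [Matrix.mul_apply, Finset.sum_eq_single (⟨v, hv⟩ : {b // κ b = i})]
      · simp only [mat, hX, Matrix.of_apply]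
        by_cases h4 : J j = v
        · by_cases h5 : b.1 = u
          · simp [h4, h5]
          · simp [h4, h5, Ne.symm h5]
        · simp [h4]
      · intro c _ hc
        rw [hX, Matrix.of_apply, if_neg, mul_zero]
        rintro ⟨h4, -⟩
        exact hc (Subtype.ext h4)
      · intro h; exact absurd (Finset.mem_univ _) h
    by_cases h4 : J j = v
    · rw [if_pos h4, detForm, mat_update, h3, if_pos h4]
    · rw [if_neg h4, h3, if_neg h4]
      symm
      apply Matrix.det_eq_zero_of_row_eq_zero j
      intro b
      rw [Matrix.updateRow_self]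
      rfl
  · refine Finset.sum_eq_zero fun j _ => ?_
    by_cases h4 : J j = v
    · rw [if_pos h4, detForm]
      apply Matrix.det_eq_zero_of_row_eq_zero j
      intro b
      rw [mat_update, Matrix.updateRow_self, if_neg]
      intro h; exact hi (by rw [h, b.2])
    · rw [if_neg h4]

theorem killed_detForm : Killed κ (detForm K κ i) := by
  intro u v huv J
  rw [Finset.sum_sub_distrib]
  by_cases h : u = v
  · subst h; rw [sub_self]
  · rw [detForm_shift h huv, detForm_shift (Ne.symm h) huv.symm, sub_zero]

theorem isAlt_detForm : IsAlt (detForm K κ i) := by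
  intro σ J
  have h1 : mat K κ i (J ∘ σ) = (mat K κ i J).submatrix σ id := by
    ext a b
    simp [mat]
  rw [detForm, h1, Matrix.det_permute]
  rfl

theorem detForm_ne {J : {b // κ b = i} → B} :
    detForm K κ i J ≠ 0 ↔ Injective J ∧ ∀ x, κ (J x) = i := by
  constructor
  · intro h
    constructor
    · intro a b hab
      by_contra hne
      apply h
      apply Matrix.det_zero_of_row_eq hne
      funext c
      simp only [mat, Matrix.of_apply, hab]
    · intro x
      by_contra hx
      apply h
      apply Matrix.det_eq_zero_of_row_eq_zero x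
      intro b
      simp only [mat, Matrix.of_apply]
      rw [if_neg]
      intro h'; exact hx (by rw [h', b.2])
  · rintro ⟨h1, h2⟩
    have hinj : Injective (fun x => (⟨J x, h2 x⟩ : {b // κ b = i})) := by
      intro a b hab
      exact h1 (congrArg Subtype.val hab)
    set σ : Equiv.Perm {b // κ b = i} := Equiv.ofBijective _ (Finite.injective_iff_bijective.1 hinj)
      with hσ
    have h3 : mat K κ i J = (1 : Matrix _ _ K).submatrix σ id := by
      ext a b
      simp only [mat, Matrix.of_apply, Matrix.submatrix_apply, id, Matrix.one_apply]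
      congr 1
      rw [eq_iff_iff, hσ, Equiv.ofBijective_apply]
      constructor
      · intro h; exact Subtype.ext h
      · intro h; rw [← h]
    rw [detForm, h3, Matrix.det_permute, Matrix.det_one, mul_one]
    rcases Int.units_eq_one_or (Equiv.Perm.sign σ) with h | h <;> simp [h]

theorem detForm_sq (J : {b // κ b = i} → B) :
    detForm K κ i J * detForm K κ i J = if (Injective J ∧ ∀ x, κ (J x) = i) then 1 else 0 := by
  classical
  by_cases h : Injective J ∧ ∀ x, κ (J x) = i
  · rw [if_pos h]
    have hinj : Injective (fun x => (⟨J x, h.2 x⟩ : {b // κ b = i})) := by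
      intro a b hab
      exact h.1 (congrArg Subtype.val hab)
    set σ : Equiv.Perm {b // κ b = i} := Equiv.ofBijective _ (Finite.injective_iff_bijective.1 hinj)
      with hσ
    have h3 : mat K κ i J = (1 : Matrix _ _ K).submatrix σ id := by
      ext a b
      simp only [mat, Matrix.of_apply, Matrix.submatrix_apply, id, Matrix.one_apply]
      congr 1
      rw [eq_iff_iff, hσ, Equiv.ofBijective_apply]
      constructor
      · intro h; exact Subtype.ext h
      · intro h; rw [← h]
    rw [detForm, h3, Matrix.det_permute, Matrix.det_one, mul_one]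
    rcases Int.units_eq_one_or (Equiv.Perm.sign σ) with h | h <;> simp [h]
  · rw [if_neg h]
    have : detForm K κ i J = 0 := by
      by_contra h'
      exact h (detForm_ne.1 h')
    rw [this, mul_zero]

end Pool.Agent.R914.K3P
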