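import Pool.Agent.R914.K3P.Defs

/-!
# The Kuga-Satake correspondence: definitions

In the intended use `A` is the Kuga-Satake abelian variety of the polarised Hodge structure `T`,
the complex vector space `K ^ N` is `H ^ 1 (A, ℂ)`, which is the Clifford algebra of `T ⊗ ℂ`, and `L b`
is the left multiplication by the vector `b` of the orthonormal basis `B`.
-/

open Finset Function

universe u

namespace Pool.Agent.R914.K3P

variable {K : Type u} [Field K] {B ι N : Type} [Fintype B] [DecidableEq B] [Fintype N]
  [DecidableEq N]

/-- The matrices `L b` satisfy the relations of the Clifford algebra for an orthonormal basis. -/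
def IsClifford (L : B → Matrix N N K) : Prop :=
  (∀ b, L b * L b = 1) ∧ ∀ b c, b ≠ c → L b * L c = -(L c * L b)

/-- The matrix `Z` commutes with the images `L u * L v` (`u`, `v` different basis vectors of the same
block) of the Lie algebras `so(V i)` in the spin representation: in the intended use this is the
Hodge Lie algebra, and `Z` is a complex linear combination of endomorphisms of the abelian
variety. -/
def IsEnd (κ : B → ι) (L : B → Matrix N N K) (Z : Matrix N N K) : Prop :=
  ∀ u v, κ u = κ v → u ≠ v → Z * (L u * L v) = L u * L v * Z

/-- The form `(t_1, ..., t_m) ↦ tr (L(t_1) ... L(t_m) Z)`. -/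
def traceForm (L : B → Matrix N N K) (Z : Matrix N N K) (m : ℕ) : Form K B (Fin m) :=
  fun J => ((List.ofFn fun j => L (J j)).prod * Z).trace

/-- The system contains the forms `(t_1, ..., t_m) ↦ tr (L(t_1) ... L(t_m) Z)`, for all `m` and all
matrices `Z` commuting with the Lie algebras of the blocks. In the intended use this holds if the
Kuga-Satake correspondence, in `T ⊗ End(H ^ 1 (A))`, is algebraic. -/
def IsAlgebraicKugaSatake (κ : B → ι) (𝒜 : System K B) (L : B → Matrix N N K) : Prop :=
  ∀ Z : Matrix N N K, IsEnd κ L Z → ∀ m : ℕ, traceForm L Z m ∈ 𝒜.A (Fin m)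

end Pool.Agent.R914.K3P
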