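import Pool.Agent.R914.K3P.Sys
import Pool.Agent.Y127.FftO

/-!
# One block
-/

set_option linter.unusedSectionVars false

open Finset Function

universe u

namespace Pool.Agent.R914.K3P

variable {K : Type u} [Field K] {B ι : Type} [Fintype B] [DecidableEq B] [DecidableEq ι]
  {κ : B → ι} {i : ι} (𝒜 : System K B)

/-- The form vanishes unless all variables are in the block `i`. -/
def Supp (κ : B → ι) (i : ι) {S : Type} (f : Form K B S) : Prop :=
  ∀ J : S → B, (∃ x, κ (J x) ≠ i) → f J = 0

open Classical in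
/-- Extension by zero. -/
noncomputable def extz (K : Type u) [Field K] (κ : B → ι) (i : ι) (S : Type) :
    ((S → {b // κ b = i}) → K) →ₗ[K] Form K B S where
  toFun g := fun J => if h : ∀ x, κ (J x) = i then g (fun x => ⟨J x, h x⟩) else 0
  map_add' g h := by
    funext J
    by_cases hJ : ∀ x, κ (J x) = i
    · simp [hJ]
    · simp [hJ]
  map_smul' c g := by
    funext J
    by_cases hJ : ∀ x, κ (J x) = i
    · simp [hJ]
    · simp [hJ]

theorem extz_restrict {S : Type} {f : Form K B S} (hf : Supp κ i f) :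
    extz K κ i S (fun x => f (fun j => (x j).1)) = f := by
  funext J
  by_cases hJ : ∀ x, κ (J x) = i
  · simp only [extz, LinearMap.coe_mk, AddHom.coe_mk, dif_pos hJ]
  · simp only [extz, LinearMap.coe_mk, AddHom.coe_mk, dif_neg hJ]
    push Not at hJ
    exact (hf J hJ).symm

theorem extz_gen {S : Type} [Fintype S] [DecidableEq S] (hp : proj K κ i ∈ 𝒜.A Bool) {m : ℕ}
    (e : Fin m × Fin 2 ≃ S) (w : K) :
    extz K κ i S (TH125.Nod.gen (fun _ : {b // κ b = i} => ())
      (1 : Matrix {b // κ b = i} {b // κ b = i} K) (fun _ : S => ()) e w) ∈ 𝒜.A S := by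
  classical
  have h1 := 𝒜.prod_mem hp m
  have h2 := 𝒜.rename ((Equiv.prodCongr (Equiv.refl (Fin m)) finTwoEquiv.symm).trans e) _ h1
  have h3 := Submodule.smul_mem _ w h2
  convert h3 using 1
  funext J
  rw [Pi.smul_apply, smul_eq_mul]
  have hf : ∀ b : Bool, finTwoEquiv.symm b = if b then 1 else 0 := by decide
  have key : ∀ l : Fin m, proj K κ i (fun b => (J ∘ ((Equiv.prodCongr (Equiv.refl (Fin m))
      finTwoEquiv.symm).trans e)) (l, b)) =
      if J (e (l, 1)) = J (e (l, 0)) ∧ κ (J (e (l, 1))) = i then 1 else 0 := by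
    intro l
    unfold proj
    simp only [comp_apply, Equiv.trans_apply, Equiv.prodCongr_apply, Prod.map_apply,
      Equiv.refl_apply, hf]
    rfl
  show _ = w * ∏ l, proj K κ i (fun b => (J ∘ ((Equiv.prodCongr (Equiv.refl (Fin m))
      finTwoEquiv.symm).trans e)) (l, b))
  simp only [key]
  by_cases hJ : ∀ x, κ (J x) = i
  · simp only [extz, LinearMap.coe_mk, AddHom.coe_mk, dif_pos hJ, TH125.Nod.gen]
    rw [if_pos (fun _ => trivial), smul_eq_mul, mul_comm]
    congr 1
    refine Finset.prod_congr rfl fun l _ => ?_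
    rw [Matrix.one_apply]
    congr 1
    rw [eq_iff_iff]
    constructor
    · intro h
      exact ⟨(congrArg Subtype.val h).symm, hJ _⟩
    · rintro ⟨h, -⟩
      exact Subtype.ext h.symm
  · simp only [extz, LinearMap.coe_mk, AddHom.coe_mk, dif_neg hJ]
    push Not at hJ
    obtain ⟨x, hx⟩ := hJ
    obtain ⟨⟨l, c⟩, rfl⟩ := e.surjective x
    symm
    rw [Finset.prod_eq_zero (Finset.mem_univ l), mul_zero]
    rw [if_neg]
    rintro ⟨h1, h2⟩
    have hc : c = 0 ∨ c = 1 := by omega
    rcases hc with rfl | rfl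
    · exact hx (by rw [← h1]; exact h2)
    · exact hx h2

theorem extz_Gen {S : Type} [Fintype S] [DecidableEq S] (hp : proj K κ i ∈ 𝒜.A Bool)
    {g : (S → {b // κ b = i}) → K}
    (hg : g ∈ TH125.Nod.Gen (fun _ : {b // κ b = i} => ())
      (1 : Matrix {b // κ b = i} {b // κ b = i} K) (fun _ : S => ())) :
    extz K κ i S g ∈ 𝒜.A S := by
  induction hg using Submodule.span_induction with
  | mem g hg =>
    obtain ⟨m, e, w, rfl⟩ := hg
    exact extz_gen 𝒜 hp e w
  | zero => rw [map_zero]; exact Submodule.zero_mem _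
  | add a b _ _ ha hb => rw [map_add]; exact Submodule.add_mem _ ha hb
  | smul c a _ ha => rw [map_smul]; exact Submodule.smul_mem _ c ha

/-- The even case. -/
theorem even_mem [CharZero K] {S : Type} [Fintype S] [DecidableEq S]
    (hp : proj K κ i ∈ 𝒜.A Bool) (o : {b // κ b = i}) {f : Form K B S} (hf : Killed κ f)
    (hs : Supp κ i f) (he : ∀ J, Odd (occ J o.1) → f J = 0) : f ∈ 𝒜.A S := by
  classical
  rw [← extz_restrict hs]
  apply extz_Gen 𝒜 hp
  refine Y127.fftO (Q := (1 : Matrix {b // κ b = i} {b // κ b = i} K)) (R := 1) ?_ ?_ (o := o)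
    ?_ (Fintype.card S) S _ rfl ?_ ?_
  · intro a b
    rw [Matrix.one_apply, Matrix.one_apply]
    simp only [eq_comm]
  · exact Matrix.mul_one 1
  · intro q hq
    exact Matrix.one_apply_ne (Ne.symm hq)
  · intro u v _ x
    have h := hf u.1 v.1 (by rw [u.2, v.2]) (fun j => (x j).1)
    refine Eq.trans ?_ h
    refine Finset.sum_congr rfl fun j _ => ?_
    have e1 : ∀ w : {b // κ b = i}, (fun j' => ((update x j w) j').1) =
        update (fun j => (x j).1) j w.1 := by
      intro w
      funext j'
      by_cases hj : j' = j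
      · subst hj; simp
      · simp [hj]
    show ((1 : Matrix {b // κ b = i} {b // κ b = i} K) v (x j) •
        f (fun j' => ((update x j u) j').1) -
      ((1 : K) * (1 : Matrix {b // κ b = i} {b // κ b = i} K) u (x j)) •
        f (fun j' => ((update x j v) j').1)) = _
    rw [e1, e1, Matrix.one_apply, Matrix.one_apply]
    have e2 : (v = x j) ↔ (x j).1 = v.1 :=
      ⟨fun h => by rw [h], fun h => Subtype.ext h.symm⟩
    have e3 : (u = x j) ↔ (x j).1 = u.1 :=
      ⟨fun h => by rw [h], fun h => Subtype.ext h.symm⟩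
    simp only [e2, e3]
    by_cases a1 : (x j).1 = v.1
    · by_cases a2 : (x j).1 = u.1
      · simp [a1, a2]
      · simp [a1, a2]
    · by_cases a2 : (x j).1 = u.1
      · simp [a1, a2]
      · simp [a1, a2]
  · intro x hx
    apply he
    have : occ (fun j => (x j).1) o.1 = Y127.occ x o := by
      unfold occ Y127.occ
      congr 1
      ext j
      simp only [Finset.mem_filter, Finset.mem_univ, true_and]
      exact ⟨fun h => Subtype.ext h, fun h => by rw [h]⟩
    rw [this]
    exact hx

theorem supp_ite {S : Type} {f : Form K B S} (hs : Supp κ i f) (p : (S → B) → Prop)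
    [DecidablePred p] : Supp κ i (fun J => if p J then f J else 0) := by
  intro J hJ
  simp only [hs J hJ, ite_self]

theorem sum_detForm_sq [CharZero K] :
    ∑ I : {b // κ b = i} → B, detForm K κ i I * detForm K κ i I ≠ 0 := by
  classical
  simp only [detForm_sq]
  rw [Finset.sum_boole]
  have : 0 < (univ.filter fun I : {b // κ b = i} → B =>
      Injective I ∧ ∀ x, κ (I x) = i).card := by
    apply Finset.card_pos.2
    refine ⟨fun x => x.1, ?_⟩
    rw [Finset.mem_filter]
    exact ⟨Finset.mem_univ _, Subtype.val_injective, fun x => x.2⟩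
  exact_mod_cast this.ne'

theorem occ_tens {S S' : Type} [Fintype S] [DecidableEq S] [Fintype S'] [DecidableEq S']
    (J : S ⊕ S' → B) (o : B) : occ J o = occ (J ∘ Sum.inl) o + occ (J ∘ Sum.inr) o := by
  unfold occ
  simp only [Finset.card_filter, Fintype.sum_sum_type, comp_apply]

theorem occ_det {J : {b // κ b = i} → B} (o : {b // κ b = i}) (hJ : detForm K κ i J ≠ 0) :
    occ J o.1 = 1 := by
  obtain ⟨h1, h2⟩ := detForm_ne.1 hJ
  have hinj : Injective (fun x => (⟨J x, h2 x⟩ : {b // κ b = i})) := by
    intro a b hab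
    exact h1 (congrArg Subtype.val hab)
  obtain ⟨x, hx⟩ := Finite.injective_iff_surjective.1 hinj o
  unfold occ
  rw [Finset.card_eq_one]
  refine ⟨x, ?_⟩
  ext y
  simp only [Finset.mem_filter, Finset.mem_univ, true_and, Finset.mem_singleton]
  have hx' : J x = o.1 := congrArg Subtype.val hx
  constructor
  · intro h; exact h1 (h.trans hx'.symm)
  · rintro rfl; exact hx'

/-- **One block.** -/
theorem single_mem [CharZero K] {S : Type} [Fintype S] [DecidableEq S]
    (hD : detForm K κ i ∈ 𝒜.A {b // κ b = i}) {f : Form K B S} (hf : Killed κ f)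
    (hs : Supp κ i f) : f ∈ 𝒜.A S := by
  classical
  have hp := 𝒜.proj_mem hD
  by_cases hne : Nonempty {b // κ b = i}
  · obtain ⟨o⟩ := hne
    set f0 : Form K B S := fun J => if Even (occ J o.1) then f J else 0 with hf0
    have h0k : Killed κ f0 := killed_even hf o.1
    have h0s : Supp κ i f0 := supp_ite hs _
    have h0 : f0 ∈ 𝒜.A S := by
      refine even_mem 𝒜 hp o h0k h0s fun J hJ => ?_
      simp only [hf0]
      rw [if_neg (Nat.not_even_iff_odd.2 hJ)]
    set f1 : Form K B S := f - f0 with hf1
    have h1k : Killed κ f1 := mem_kil.1 ((kil (K := K) κ S).sub_mem (mem_kil.2 hf) (mem_kil.2 h0k))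
    have h1s : Supp κ i f1 := by
      intro J hJ
      rw [hf1, Pi.sub_apply, hs J hJ, h0s J hJ, sub_zero]
    have h1e : ∀ J, Even (occ J o.1) → f1 J = 0 := by
      intro J hJ
      rw [hf1, Pi.sub_apply]
      simp only [hf0]
      rw [if_pos hJ, sub_self]
    have hG : tens f1 (detForm K κ i) ∈ 𝒜.A (S ⊕ {b // κ b = i}) := by
      refine even_mem 𝒜 hp o (killed_tens h1k killed_detForm) ?_ ?_
      · rintro J ⟨x, hx⟩
        unfold tens
        rcases x with x | x
        · rw [h1s _ ⟨x, hx⟩, zero_mul]
        · have : detForm K κ i (J ∘ Sum.inr) = 0 := by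
            by_contra h
            exact hx ((detForm_ne.1 h).2 x)
          rw [this, mul_zero]
      · intro J hJ
        unfold tens
        by_cases h : detForm K κ i (J ∘ Sum.inr) = 0
        · rw [h, mul_zero]
        · rw [occ_tens, occ_det o h] at hJ
          rw [h1e _ (by rwa [Nat.odd_add_one, Nat.not_odd_iff_even] at hJ), zero_mul]
    have hD' := 𝒜.rename (Equiv.sumEmpty {b // κ b = i} Empty).symm _ hD
    have h2 := 𝒜.comp _ _ hG hD'
    have h3 := 𝒜.rename (Equiv.sumEmpty S Empty) _ h2
    have h4 := Submodule.smul_mem _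
      (∑ I : {b // κ b = i} → B, detForm K κ i I * detForm K κ i I)⁻¹ h3
    have h5 : f1 ∈ 𝒜.A S := by
      convert h4 using 1
      funext J
      rw [Pi.smul_apply, smul_eq_mul]
      have h6 : comp (tens f1 (detForm K κ i)) (fun J : {b // κ b = i} ⊕ Empty → B =>
          detForm K κ i (J ∘ (Equiv.sumEmpty {b // κ b = i} Empty).symm))
          (J ∘ (Equiv.sumEmpty S Empty)) =
          f1 J * ∑ I : {b // κ b = i} → B, detForm K κ i I * detForm K κ i I := by
        unfold comp tens
        rw [Finset.mul_sum]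
        refine Finset.sum_congr rfl fun I _ => ?_
        rw [← mul_assoc]
        rfl
      refine Eq.trans ?_ (congrArg (fun z => (∑ I : {b // κ b = i} → B,
        detForm K κ i I * detForm K κ i I)⁻¹ * z) h6.symm)
      have h7 := sum_detForm_sq (K := K) (κ := κ) (i := i)
      show f1 J = (∑ I : {b // κ b = i} → B, detForm K κ i I * detForm K κ i I)⁻¹ *
        (f1 J * ∑ I : {b // κ b = i} → B, detForm K κ i I * detForm K κ i I)
      rw [mul_comm (f1 J), ← mul_assoc, inv_mul_cancel₀ h7, one_mul]
    have h6 : f = f0 + f1 := by rw [hf1]; abel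
    rw [h6]
    exact Submodule.add_mem _ h0 h5
  · -- the block is empty
    by_cases hS : Nonempty S
    · obtain ⟨x⟩ := hS
      have : f = 0 := by
        funext J
        apply hs J
        refine ⟨x, fun h => hne ⟨⟨J x, h⟩⟩⟩
      rw [this]
      exact Submodule.zero_mem _
    · have hS' : IsEmpty S := not_nonempty_iff.1 hS
      have h1 := 𝒜.rename (Equiv.equivOfIsEmpty Empty S) _ 𝒜.const
      have h2 := Submodule.smul_mem _ (f (fun x => (hS'.false x).elim)) h1
      convert h2 using 1
      funext J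
      rw [Pi.smul_apply, smul_eq_mul, mul_one]
      congr 1
      funext x
      exact (hS'.false x).elim

end Pool.Agent.R914.K3P
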