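import Pool.Agent.R914.K3P.Det

/-!
# Systems of forms: products and projections
-/

set_option linter.unusedSectionVars false

open Finset Function

universe u

namespace Pool.Agent.R914.K3P

variable {K : Type u} [Field K] {B ι : Type} [Fintype B] [DecidableEq B] [DecidableEq ι]
  {κ : B → ι} {i : ι} (𝒜 : System K B)

theorem System.tens_mem {S S' : Type} [Fintype S] [DecidableEq S] [Fintype S'] [DecidableEq S']
    {t : Form K B S} {s : Form K B S'} (ht : t ∈ 𝒜.A S) (hs : s ∈ 𝒜.A S') :
    tens t s ∈ 𝒜.A (S ⊕ S') := by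
  have h1 := 𝒜.rename (Equiv.sumEmpty S Empty).symm t ht
  have h2 := 𝒜.rename (Equiv.emptySum Empty S').symm s hs
  have h3 := 𝒜.comp _ _ h1 h2
  convert h3 using 1
  funext J
  unfold K3P.comp tens
  rw [Fintype.sum_unique]
  congr 1

theorem System.tens_mem' {S S' : Type} [Fintype S] [Fintype S']
    {t : Form K B S} {s : Form K B S'} (ht : t ∈ 𝒜.A S) (hs : s ∈ 𝒜.A S') :
    (fun J : S ⊕ S' → B => t (J ∘ Sum.inl) * s (J ∘ Sum.inr)) ∈ 𝒜.A (S ⊕ S') := by
  classical
  exact 𝒜.tens_mem ht hs

/-- The scalar product of the block `i`. -/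
def proj (K : Type u) [Field K] (κ : B → ι) (i : ι) : Form K B Bool :=
  fun J => if J true = J false ∧ κ (J true) = i then 1 else 0

section proj

variable (b0 : {b // κ b = i})

/-- extension by the value `a` at `b0` -/
def ext0 (a : B) (I : {x : {b // κ b = i} // ¬ x = b0} → B) : {b // κ b = i} → B :=
  fun x => if h : x = b0 then a else I ⟨x, h⟩

/-- the index function is a bijection to the block -/
def Bij (J : {b // κ b = i} → B) : Prop := Injective J ∧ ∀ x, κ (J x) = i

variable {b0}

theorem bij_eq {a c : B} {I : {x : {b // κ b = i} // ¬ x = b0} → B} (ha : Bij (ext0 b0 a I))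
    (hc : Bij (ext0 b0 c I)) : a = c := by
  have hinj : Injective (fun x => (⟨ext0 b0 a I x, ha.2 x⟩ : {b // κ b = i})) := by
    intro x y hxy
    exact ha.1 (congrArg Subtype.val hxy)
  have hsurj := Finite.injective_iff_surjective.1 hinj
  have hci : κ c = i := by
    have := hc.2 b0
    simpa [ext0] using this
  obtain ⟨x, hx⟩ := hsurj ⟨c, hci⟩
  have hx' : ext0 b0 a I x = c := congrArg Subtype.val hx
  by_cases hxb : x = b0
  · subst hxb
    simpa [ext0] using hx'
  · exfalso
    have h1 : ext0 b0 c I x = ext0 b0 c I b0 := by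
      have e1 : ext0 b0 c I x = ext0 b0 a I x := by simp [ext0, hxb]
      rw [e1, hx']
      simp [ext0]
    exact hxb (hc.1 h1)

open Classical in
/-- the number of extensions to a bijection -/
noncomputable def cnt (b0 : {b // κ b = i}) (a : B) : ℕ :=
  (univ.filter fun I : {x : {b // κ b = i} // ¬ x = b0} → B => Bij (ext0 b0 a I)).card

theorem bij_swap {a a' : B} (ha : κ a = i) (ha' : κ a' = i)
    {I : {x : {b // κ b = i} // ¬ x = b0} → B} :
    Bij (ext0 b0 a' (Equiv.swap a a' ∘ I)) ↔ Bij (ext0 b0 a I) := by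
  have h1 : ext0 b0 a' (Equiv.swap a a' ∘ I) = Equiv.swap a a' ∘ ext0 b0 a I := by
    funext x
    by_cases hx : x = b0
    · simp [ext0, hx]
    · simp [ext0, hx]
  have h2 : ∀ b, κ (Equiv.swap a a' b) = i ↔ κ b = i := by
    intro b
    by_cases hb : b = a
    · rw [hb, Equiv.swap_apply_left]; exact ⟨fun _ => ha, fun _ => ha'⟩
    · by_cases hb' : b = a'
      · rw [hb', Equiv.swap_apply_right]; exact ⟨fun _ => ha', fun _ => ha⟩
      · rw [Equiv.swap_apply_of_ne_of_ne hb hb']
  rw [h1]
  unfold Bij
  constructor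
  · rintro ⟨h3, h4⟩
    exact ⟨fun x y hxy => h3 (by simp only [comp_apply, hxy]), fun x => (h2 _).1 (h4 x)⟩
  · rintro ⟨h3, h4⟩
    exact ⟨(Equiv.swap a a').injective.comp h3, fun x => (h2 _).2 (h4 x)⟩

theorem cnt_eq {a a' : B} (ha : κ a = i) (ha' : κ a' = i) : cnt b0 a = cnt b0 a' := by
  classical
  unfold cnt
  refine Finset.card_bij (fun I _ => Equiv.swap a a' ∘ I) ?_ ?_ ?_
  · intro I hI
    rw [Finset.mem_filter] at hI ⊢
    exact ⟨Finset.mem_univ _, (bij_swap ha ha').2 hI.2⟩
  · intro I _ I' _ h
    funext x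
    exact (Equiv.swap a a').injective (congrFun h x)
  · intro I hI
    refine ⟨Equiv.swap a a' ∘ I, ?_, ?_⟩
    · rw [Finset.mem_filter] at hI ⊢
      refine ⟨Finset.mem_univ _, ?_⟩
      rw [Equiv.swap_comm]
      exact (bij_swap ha' ha).2 hI.2
    · funext x
      simp

theorem cnt_pos {a : B} (ha : κ a = i) : 0 < cnt b0 a := by
  classical
  rw [cnt_eq ha b0.2]
  unfold cnt
  apply Finset.card_pos.2
  refine ⟨fun x => x.1.1, ?_⟩
  rw [Finset.mem_filter]
  refine ⟨Finset.mem_univ _, ?_⟩
  have h1 : ext0 b0 b0.1 (fun x : {x : {b // κ b = i} // ¬ x = b0} => x.1.1) =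
      fun x => x.1 := by
    funext x
    by_cases hx : x = b0
    · simp [ext0, hx]
    · simp [ext0, hx]
  rw [h1]
  exact ⟨Subtype.val_injective, fun x => x.2⟩

theorem cnt_zero {a : B} (ha : κ a ≠ i) : cnt b0 a = 0 := by
  classical
  unfold cnt
  rw [Finset.card_eq_zero, Finset.filter_eq_empty_iff]
  intro I _ hI
  have := hI.2 b0
  simp only [ext0, dite_true] at this
  exact ha this

theorem sum_det_det (a c : B) :
    ∑ I : {x : {b // κ b = i} // ¬ x = b0} → B,
      detForm K κ i (ext0 b0 a I) * detForm K κ i (ext0 b0 c I) =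
      if a = c then (cnt b0 a : K) else 0 := by
  classical
  by_cases h : a = c
  · subst h
    rw [if_pos rfl]
    simp only [detForm_sq]
    rw [Finset.sum_boole]
    unfold cnt Bij
    congr!
  · rw [if_neg h]
    refine Finset.sum_eq_zero fun I _ => ?_
    by_contra hne
    have h1 := left_ne_zero_of_mul hne
    have h2 := right_ne_zero_of_mul hne
    exact h (bij_eq (detForm_ne.1 h1) (detForm_ne.1 h2))

end proj

theorem System.proj_mem [CharZero K] (hD : detForm K κ i ∈ 𝒜.A {b // κ b = i}) :
    proj K κ i ∈ 𝒜.A Bool := by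
  classical
  by_cases hne : Nonempty {b // κ b = i}
  · obtain ⟨b0⟩ := hne
    set S₀ := {x : {b // κ b = i} // x = b0} with hS₀
    set U := {x : {b // κ b = i} // ¬ x = b0} with hU
    have h1 := 𝒜.rename (Equiv.sumCompl (fun x : {b // κ b = i} => x = b0)).symm _ hD
    have h2 := 𝒜.rename ((Equiv.sumCompl (fun x : {b // κ b = i} => x = b0)).symm.trans
      (Equiv.sumComm S₀ U)) _ hD
    have h3 := 𝒜.comp _ _ h1 h2
    have hu : Unique S₀ := ⟨⟨⟨b0, rfl⟩⟩, fun x => Subtype.ext x.2⟩
    set e : S₀ ⊕ S₀ ≃ Bool :=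
      (Equiv.sumCongr (Equiv.ofUnique S₀ PUnit.{1}) (Equiv.ofUnique S₀ PUnit.{1})).trans
        Equiv.boolEquivPUnitSumPUnit.{0, 0}.symm with he
    have h4 := 𝒜.rename e _ h3
    have h5 := Submodule.smul_mem _ ((cnt b0 b0.1 : K)⁻¹) h4
    have hN : (cnt b0 b0.1 : K) ≠ 0 := by
      exact_mod_cast (cnt_pos (b0 := b0) b0.2).ne'
    convert h5 using 1
    funext J
    rw [Pi.smul_apply, smul_eq_mul]
    have h6 : ∀ (L : Bool → B), K3P.comp (fun J : S₀ ⊕ U → B => detForm K κ i
        (J ∘ (Equiv.sumCompl (fun x : {b // κ b = i} => x = b0)).symm))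
        (fun J : U ⊕ S₀ → B => detForm K κ i
        (J ∘ ((Equiv.sumCompl (fun x : {b // κ b = i} => x = b0)).symm.trans
          (Equiv.sumComm S₀ U)))) (L ∘ e) =
        if L (e (Sum.inl default)) = L (e (Sum.inr default)) then
          (cnt b0 (L (e (Sum.inl default))) : K) else 0 := by
      intro L
      rw [← sum_det_det]
      unfold K3P.comp
      refine Finset.sum_congr rfl fun I _ => ?_
      refine congrArg₂ (· * ·) (congrArg (detForm K κ i) ?_) (congrArg (detForm K κ i) ?_)
      · funext x
        by_cases hx : x = b0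
        · have h0 : (⟨x, hx⟩ : S₀) = default := Subsingleton.elim _ _
          have h1 : (Equiv.sumCompl (fun x : {b // κ b = i} => x = b0)).symm x =
              Sum.inl ⟨x, hx⟩ := Equiv.sumCompl_symm_apply_of_pos (p := fun x : {b // κ b = i} => x = b0) hx
          rw [comp_apply, h1, Sum.elim_inl, comp_apply, comp_apply, h0]
          simp only [ext0, hx, dite_true]
        · have h1 : (Equiv.sumCompl (fun x : {b // κ b = i} => x = b0)).symm x =
              Sum.inr ⟨x, hx⟩ := Equiv.sumCompl_symm_apply_of_neg (p := fun x : {b // κ b = i} => x = b0) hx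
          rw [comp_apply, h1, Sum.elim_inr]
          simp only [ext0, hx, dite_false]
      · funext x
        by_cases hx : x = b0
        · have h0 : (⟨x, hx⟩ : S₀) = default := Subsingleton.elim _ _
          have h1 : (Equiv.sumCompl (fun x : {b // κ b = i} => x = b0)).symm x =
              Sum.inl ⟨x, hx⟩ := Equiv.sumCompl_symm_apply_of_pos (p := fun x : {b // κ b = i} => x = b0) hx
          rw [comp_apply, Equiv.trans_apply, h1, Equiv.sumComm_apply, Sum.swap_inl, Sum.elim_inr,
            comp_apply, comp_apply, h0]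
          simp only [ext0, hx, dite_true]
        · have h1 : (Equiv.sumCompl (fun x : {b // κ b = i} => x = b0)).symm x =
              Sum.inr ⟨x, hx⟩ := Equiv.sumCompl_symm_apply_of_neg (p := fun x : {b // κ b = i} => x = b0) hx
          rw [comp_apply, Equiv.trans_apply, h1, Equiv.sumComm_apply, Sum.swap_inr, Sum.elim_inl]
          simp only [ext0, hx, dite_false]
    have h7 := h6 J
    have h8 : ∀ b : Bool, b = true ∨ b = false := by decide
    have h9 : e (Sum.inl default) ≠ e (Sum.inr default) := by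
      intro h; exact Sum.inl_ne_inr (e.injective h)
    refine Eq.trans ?_ (congrArg (fun z => (cnt b0 b0.1 : K)⁻¹ * z) h7.symm)
    unfold proj
    have h10 : (J true = J false ∧ κ (J true) = i) ↔
        (J (e (Sum.inl default)) = J (e (Sum.inr default)) ∧
          κ (J (e (Sum.inl default))) = i) := by
      rcases h8 (e (Sum.inl default)) with h | h
      · have h' : e (Sum.inr default) = false := by
          rcases h8 (e (Sum.inr default)) with h'' | h''
          · exact absurd (h.trans h''.symm) h9
          · exact h''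
        rw [h, h']
      · have h' : e (Sum.inr default) = true := by
          rcases h8 (e (Sum.inr default)) with h'' | h''
          · exact h''
          · exact absurd (h.trans h''.symm) h9
        rw [h, h']
        constructor
        · rintro ⟨a1, a2⟩; exact ⟨a1.symm, by rw [← a1]; exact a2⟩
        · rintro ⟨a1, a2⟩; exact ⟨a1.symm, by rw [← a1]; exact a2⟩
    by_cases h11 : J (e (Sum.inl default)) = J (e (Sum.inr default))
    · by_cases h12 : κ (J (e (Sum.inl default))) = i
      · rw [if_pos (h10.2 ⟨h11, h12⟩), if_pos h11, cnt_eq h12 b0.2]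
        exact (inv_mul_cancel₀ hN).symm
      · rw [if_neg (fun h => h12 (h10.1 h).2), if_pos h11, cnt_zero h12, Nat.cast_zero, mul_zero]
    · rw [if_neg (fun h => h11 (h10.1 h).1), if_neg h11, mul_zero]
  · have : proj K κ i = 0 := by
      funext J
      unfold proj
      rw [if_neg]
      · rfl
      · rintro ⟨-, h⟩
        exact hne ⟨⟨_, h⟩⟩
    rw [this]
    exact Submodule.zero_mem _

/-- Products of binary forms. -/
theorem System.prod_mem {p : Form K B Bool} (hp : p ∈ 𝒜.A Bool) (m : ℕ) :
    (fun J : Fin m × Bool → B => ∏ l, p (fun b => J (l, b))) ∈ 𝒜.A (Fin m × Bool) := by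
  classical
  induction m with
  | zero =>
    have h := 𝒜.rename (Equiv.equivOfIsEmpty Empty (Fin 0 × Bool)) _ 𝒜.const
    convert h using 1
    funext J
    simp
  | succ m ih =>
    have h1 := 𝒜.tens_mem hp ih
    set e : Bool ⊕ (Fin m × Bool) ≃ Fin (m + 1) × Bool :=
      { toFun := Sum.elim (fun b => (0, b)) (fun x => (x.1.succ, x.2))
        invFun := fun x => Fin.cases (motive := fun _ => Bool ⊕ (Fin m × Bool))
          (Sum.inl x.2) (fun l => Sum.inr (l, x.2)) x.1
        left_inv := by
          rintro (b | ⟨l, b⟩)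
          · rfl
          · rfl
        right_inv := by
          rintro ⟨l, b⟩
          refine Fin.cases ?_ (fun l => ?_) l
          · rfl
          · rfl } with he
    have h2 := 𝒜.rename e _ h1
    convert h2 using 1
    funext J
    rw [Fin.prod_univ_succ]
    rfl

end Pool.Agent.R914.K3P
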